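import Pool.Agent.Helper57.SJ.Stmts

/-! Row UPT of the sheet `Helper57/SJ/Stmts.lean` (third copy). -/

set_option autoImplicit false

namespace Pool.Agent.Helper85.SJ

open MeasureTheory Set Filter Topology
open Pool.Agent.Helper57.QZ (Pr tor circ aa Zy Wy Sy Vy Ky pt lin Good zA Pz)
open Pool.Agent.Helper57.SI (wsup P1 P2 fej fc gc Kk zz ZZ ww D1 D2 tl)
open Pool.Agent.Helper57.SJ

/-- the main term -/
theorem upt_e2 {η κ C : ℝ} (hη : 0 < η) (hη1 : η < 1) (hκ : 0 < κ) (hC : 0 < C) :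
    ∃ H₀ : ℝ, 3 ≤ H₀ ∧ ∀ H : ℝ, H₀ ≤ H → 1 ≤ Real.log (Real.log H) ∧ 1 ≤ ZZ η H ∧
      ∀ k : ℕ, 16 / η * (Real.log H / Real.log (Real.log H)) ≤ k →
      (k : ℝ) ≤ (16 / η + 1) * Real.log H →
      (H + 2) * (4 * k + 2) * (k.factorial *
        (C * (ZZ η H : ℝ) ^ (-(1 - η / 2 / (1 + η)))) ^ k) / η ^ (2 * k) ≤ κ / 6 := by
  set D : ℝ := (16 / η + 1) * (2 * C) / η ^ 2 with hD
  have t1 : Tendsto Real.log atTop atTop := Real.tendsto_log_atTop
  have t2 : Tendsto (fun H => Real.log (Real.log H)) atTop atTop := t1.comp t1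
  have t3 : Tendsto (fun H => Real.log H ^ (η / 4)) atTop atTop :=
    (tendsto_rpow_atTop (by positivity)).comp t1
  obtain ⟨H₁, h1⟩ := eventually_atTop.1 ((t1.eventually_ge_atTop 3).and
    ((t2.eventually_ge_atTop 1).and (t3.eventually_ge_atTop D)))
  refine ⟨max (max H₁ 3) (108 * (16 / η + 1) / κ), le_trans (le_max_right _ _)
    (le_max_left _ _), fun H hH => ?_⟩
  obtain ⟨hl3, hll, hDl⟩ := h1 H (le_trans (le_trans (le_max_left _ _) (le_max_left _ _)) hH)
  have hH3 : 3 ≤ H := le_trans (le_trans (le_max_right _ _) (le_max_left _ _)) hH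
  have hHX : 108 * (16 / η + 1) / κ ≤ H := le_trans (le_max_right _ _) hH
  set h := Real.log H with hh
  have hh0 : 0 < h := by linarith
  have hx : h ≤ h ^ (1 + η) := by
    calc h = h ^ (1 : ℝ) := (Real.rpow_one h).symm
      _ ≤ h ^ (1 + η) := Real.rpow_le_rpow_of_exponent_le (by linarith) (by linarith)
  have hZ1 : 1 ≤ ZZ η H := by
    unfold ZZ
    apply Nat.le_floor
    rw [← hh]
    push_cast
    linarith
  refine ⟨hll, hZ1, fun k hk1 hk2 => ?_⟩
  have hZ2 : h ^ (1 + η) / 2 ≤ (ZZ η H : ℝ) := by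
    have := Nat.sub_one_lt_floor (h ^ (1 + η))
    unfold ZZ
    rw [← hh]
    linarith
  set e := 1 - η / 2 / (1 + η) with he
  have he0 : 0 ≤ e := by
    rw [he, sub_nonneg, div_le_one (by linarith)]
    linarith
  have he1 : e ≤ 1 := by
    rw [he]
    have : 0 ≤ η / 2 / (1 + η) := by positivity
    linarith
  have he2 : (1 + η) * e = 1 + η / 2 := by
    rw [he]
    field_simp
    ring
  have hZ3 : (ZZ η H : ℝ) ^ (-e) ≤ 2 * h ^ (-(1 + η / 2)) := by
    calc (ZZ η H : ℝ) ^ (-e) ≤ (h ^ (1 + η) / 2) ^ (-e) :=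
          Real.rpow_le_rpow_of_nonpos (by positivity) hZ2 (by linarith)
      _ = (h ^ (1 + η)) ^ (-e) / 2 ^ (-e) := Real.div_rpow (by positivity) (by norm_num) _
      _ = h ^ (-(1 + η / 2)) * 2 ^ e := by
          rw [← Real.rpow_mul hh0.le, Real.rpow_neg (by norm_num : (0:ℝ) ≤ 2), div_inv_eq_mul]
          congr 2
          rw [← he2]; ring
      _ ≤ h ^ (-(1 + η / 2)) * 2 := by
          apply mul_le_mul_of_nonneg_left _ (by positivity)
          calc (2 : ℝ) ^ e ≤ 2 ^ (1 : ℝ) :=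
                Real.rpow_le_rpow_of_exponent_le (by norm_num) he1
            _ = 2 := Real.rpow_one 2
      _ = _ := by ring
  set S := C * (ZZ η H : ℝ) ^ (-e) with hS
  have hS0 : 0 ≤ S := by positivity
  have hq : k * S / η ^ 2 ≤ h ^ (-(η / 4)) := by
    have a1 : (k : ℝ) * S ≤ ((16 / η + 1) * h) * (C * (2 * h ^ (-(1 + η / 2)))) :=
      mul_le_mul hk2 (mul_le_mul_of_nonneg_left hZ3 hC.le) hS0 (by positivity)
    have a2 : ((16 / η + 1) * h) * (C * (2 * h ^ (-(1 + η / 2)))) / η ^ 2 =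
        D * h ^ (-(η / 2)) := by
      have a3 : h * h ^ (-(1 + η / 2)) = h ^ (-(η / 2)) := by
        nth_rewrite 1 [← Real.rpow_one h]
        rw [← Real.rpow_add hh0]
        congr 1
        ring
      rw [hD, ← a3]
      ring
    calc k * S / η ^ 2 ≤ ((16 / η + 1) * h) * (C * (2 * h ^ (-(1 + η / 2)))) / η ^ 2 :=
          div_le_div_of_nonneg_right a1 (by positivity)
      _ = D * h ^ (-(η / 2)) := a2
      _ ≤ h ^ (η / 4) * h ^ (-(η / 2)) := mul_le_mul_of_nonneg_right hDl (by positivity)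
      _ = h ^ (-(η / 4)) := by
          rw [← Real.rpow_add hh0]
          congr 1
          ring
  have hpow : (k * S / η ^ 2) ^ k ≤ 1 / H ^ 4 := by
    have b1 : (k * S / η ^ 2) ^ k ≤ (h ^ (-(η / 4))) ^ k :=
      pow_le_pow_left₀ (by positivity) hq k
    have b2 : (h ^ (-(η / 4))) ^ k = Real.exp (-(η / 4) * k * Real.log h) := by
      rw [← Real.rpow_natCast, ← Real.rpow_mul hh0.le, Real.rpow_def_of_pos hh0]
      congr 1
      ring
    have b3 : -(η / 4) * k * Real.log h ≤ -(4 * h) := by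
      have c1 : 16 / η * (h / Real.log h) * Real.log h ≤ k * Real.log h :=
        mul_le_mul_of_nonneg_right hk1 (by linarith)
      have c2 : 16 / η * (h / Real.log h) * Real.log h = 16 / η * h := by
        field_simp
      rw [c2] at c1
      have c3 : η / 4 * (16 / η * h) ≤ η / 4 * (k * Real.log h) :=
        mul_le_mul_of_nonneg_left c1 (by positivity)
      have c4 : η / 4 * (16 / η * h) = 4 * h := by
        field_simp
        ring
      linarith
    have b4 : Real.exp (-(4 * h)) = 1 / H ^ 4 := by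
      rw [Real.exp_neg, hh, show 4 * Real.log H = Real.log (H ^ 4) by
        rw [Real.log_pow]; norm_num, Real.exp_log (by positivity), one_div]
    calc _ ≤ _ := b1
      _ = _ := b2
      _ ≤ Real.exp (-(4 * h)) := Real.exp_le_exp.2 b3
      _ = _ := b4
  have hfac : (k.factorial * S ^ k) / η ^ (2 * k) ≤ 1 / H ^ 4 := by
    have c1 : ((k.factorial : ℕ) : ℝ) ≤ (k : ℝ) ^ k := by
      exact_mod_cast Nat.factorial_le_pow k
    calc (k.factorial * S ^ k) / η ^ (2 * k) ≤ ((k : ℝ) ^ k * S ^ k) / η ^ (2 * k) :=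
          div_le_div_of_nonneg_right (mul_le_mul_of_nonneg_right c1 (by positivity))
            (by positivity)
      _ = (k * S / η ^ 2) ^ k := by rw [div_pow, mul_pow (k : ℝ) S, ← pow_mul]
      _ ≤ _ := hpow
  have hlH : h ≤ H := by
    have := Real.log_le_sub_one_of_pos (show 0 < H by linarith)
    linarith
  have hK0 : 0 < 16 / η + 1 := by positivity
  have hkH : (4 * (k : ℝ) + 2) ≤ 6 * (16 / η + 1) * H := by
    have d1 : (16 / η + 1) * h ≤ (16 / η + 1) * H := mul_le_mul_of_nonneg_left hlH hK0.le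
    have d2 : 1 ≤ 16 / η + 1 := by
      have : 0 < 16 / η := by positivity
      linarith
    nlinarith
  calc (H + 2) * (4 * k + 2) * (k.factorial * S ^ k) / η ^ (2 * k)
      = ((H + 2) * (4 * k + 2)) * ((k.factorial * S ^ k) / η ^ (2 * k)) := by ring
    _ ≤ ((3 * H) * (6 * (16 / η + 1) * H)) * (1 / H ^ 4) := by
        apply mul_le_mul _ hfac (by positivity) (by positivity)
        exact mul_le_mul (by linarith) hkH (by positivity) (by positivity)
    _ = 18 * (16 / η + 1) / H ^ 2 := by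
        field_simp
        ring
    _ ≤ 18 * (16 / η + 1) / H := by
        apply div_le_div_of_nonneg_left (by positivity) (by linarith)
        nlinarith
    _ ≤ κ / 6 := by
        rw [div_le_div_iff₀ (by linarith) (by norm_num)]
        rw [div_le_iff₀ hκ] at hHX
        linarith

/-- the error term -/
theorem upt_e3 {η A κ c : ℝ} (hη : 0 < η) (hη1 : η < 1) (hA : 3 ≤ A) (hκ : 0 < κ)
    (hc : c = η / (512 * A)) :
    ∃ T₀ : ℝ, 4 ≤ T₀ ∧ ∀ T : ℝ, T₀ ≤ T → 1 ≤ (zA A T : ℝ) ∧ ∀ H : ℝ, 3 ≤ H →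
      1 ≤ Real.log (Real.log H) → H ≤ T ^ c → H + 2 ≤ κ / 6 * T ∧ H + 2 ≤ T ∧
      ∀ k : ℕ, 1 ≤ k → (k : ℝ) ≤ 16 / η * (Real.log H / Real.log (Real.log H)) + 1 →
      (H + 2) * (4 * k + 2) * (2 * (zA A T : ℝ) ^ k * (4 * (zA A T : ℝ)) ^ (2 * k)) /
        η ^ (2 * k) ≤ κ / 6 * T := by
  have hc0 : 0 < c := by rw [hc]; positivity
  have hc4 : c ≤ 1 / 4 := by
    rw [hc, div_le_div_iff₀ (by positivity) (by norm_num)]
    nlinarith
  set m : ℝ := min (κ / 6) 1 with hm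
  have hm0 : 0 < m := lt_min (by positivity) one_pos
  set Gc : ℝ := 36 * (16 / η + 1) with hG
  have hG0 : 0 < Gc := by positivity
  have t1 : Tendsto Real.log atTop atTop := Real.tendsto_log_atTop
  have t2 : Tendsto (fun T => Real.log (Real.log T)) atTop atTop := t1.comp t1
  have t3 : Tendsto (fun T => Real.log T ^ (1 / 2 : ℝ)) atTop atTop :=
    (tendsto_rpow_atTop (by norm_num)).comp t1
  have t4 : Tendsto (fun T => Real.log T ^ A) atTop atTop :=
    (tendsto_rpow_atTop (by linarith)).comp t1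
  have t5 : Tendsto (fun T : ℝ => T ^ (1 / 2 : ℝ)) atTop atTop :=
    tendsto_rpow_atTop (by norm_num)
  have t6 : ∀ᶠ T : ℝ in atTop, ‖Real.log T ^ (4 * A + 1)‖ ≤ κ / 6 / Gc * ‖T ^ (1 / 2 : ℝ)‖ :=
    (isLittleO_log_rpow_rpow_atTop (4 * A + 1) (by norm_num : (0:ℝ) < 1 / 2)).bound
      (by positivity)
  obtain ⟨T₁, h1⟩ := eventually_atTop.1 ((t1.eventually_ge_atTop 1).and
    ((t2.eventually_ge_atTop 1).and ((t3.eventually_ge_atTop (1 / c)).and
    ((t4.eventually_ge_atTop (16 / η ^ 2)).and ((t5.eventually_ge_atTop (3 / m)).and t6)))))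
  refine ⟨max T₁ 4, le_max_right _ _, fun T hT => ?_⟩
  obtain ⟨hl1, hll, hl2, hlA, hTm, hT6⟩ := h1 T (le_trans (le_max_left _ _) hT)
  have hT4 : 4 ≤ T := le_trans (le_max_right _ _) hT
  have hT0 : 0 < T := by linarith
  set l := Real.log T with hl
  have hl0 : 0 < l := by linarith
  have hη2 : 1 ≤ 16 / η ^ 2 := by
    rw [le_div_iff₀ (by positivity)]
    nlinarith
  have hy1 : 1 ≤ (zA A T : ℝ) := by
    have : 1 ≤ zA A T := by
      unfold zA
      apply Nat.le_floor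
      rw [← hl]
      push_cast
      linarith
    exact_mod_cast this
  have hyA : (zA A T : ℝ) ≤ l ^ A := by
    unfold zA
    rw [← hl]
    exact Nat.floor_le (by positivity)
  refine ⟨hy1, fun H hH3 hhh hHT => ?_⟩
  have hH0 : 0 < H := by linarith
  have hT2 : T ^ (1 / 2 : ℝ) * T ^ (1 / 2 : ℝ) = T := by
    rw [← Real.rpow_add hT0]; norm_num
  have hTh : 0 < T ^ (1 / 2 : ℝ) := by positivity
  have hHq : H ≤ T ^ (1 / 4 : ℝ) :=
    le_trans hHT (Real.rpow_le_rpow_of_exponent_le (by linarith) hc4)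
  have hHh : H ≤ T ^ (1 / 2 : ℝ) :=
    le_trans hHq (Real.rpow_le_rpow_of_exponent_le (by linarith) (by norm_num))
  have hH3T : 3 * H ≤ m * T := by
    have a1 : 3 ≤ m * T ^ (1 / 2 : ℝ) := by
      rw [div_le_iff₀ hm0] at hTm
      linarith
    calc 3 * H ≤ (m * T ^ (1 / 2 : ℝ)) * T ^ (1 / 2 : ℝ) :=
          mul_le_mul a1 hHh hH0.le (by positivity)
      _ = m * T := by rw [mul_assoc, hT2]
  have hmT1 : m * T ≤ κ / 6 * T := mul_le_mul_of_nonneg_right (min_le_left _ _) hT0.le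
  have hmT2 : m * T ≤ 1 * T := mul_le_mul_of_nonneg_right (min_le_right _ _) hT0.le
  refine ⟨by linarith, by linarith, fun k hk1 hk2 => ?_⟩
  set h := Real.log H with hh
  set y : ℝ := (zA A T : ℝ) with hy
  have hh1 : Real.exp 1 ≤ h := by
    have hpos : 0 < h := Real.log_pos (by linarith)
    rw [← Real.le_log_iff_exp_le hpos]
    exact hhh
  have he2 : (2 : ℝ) < Real.exp 1 := by
    have := Real.exp_one_gt_d9
    linarith
  have hh0 : 0 < h := by linarith
  have hhc : h ≤ c * l := by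
    have := Real.log_le_log hH0 hHT
    rwa [Real.log_rpow hT0] at this
  have hcl0 : 0 < c * l := by linarith
  have hlogcl : Real.log l / 2 ≤ Real.log (c * l) := by
    have a1 : l ^ (1 / 2 : ℝ) ≤ c * l := by
      have a2 : l ^ (1 / 2 : ℝ) * l ^ (1 / 2 : ℝ) = l := by
        rw [← Real.rpow_add hl0]; norm_num
      have a3 : 1 ≤ c * l ^ (1 / 2 : ℝ) := by
        rw [div_le_iff₀ hc0] at hl2
        linarith
      calc l ^ (1 / 2 : ℝ) = 1 * l ^ (1 / 2 : ℝ) := (one_mul _).symm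
        _ ≤ (c * l ^ (1 / 2 : ℝ)) * l ^ (1 / 2 : ℝ) :=
            mul_le_mul_of_nonneg_right a3 (by positivity)
        _ = c * l := by rw [mul_assoc, a2]
    have := Real.log_le_log (by positivity) a1
    rw [Real.log_rpow hl0] at this
    linarith
  have hlogcl0 : 0 < Real.log (c * l) := by linarith
  have hlogh0 : 0 < Real.log h := by linarith
  have hratio : h / Real.log h ≤ 2 * (c * l) / Real.log l := by
    have a1 : Real.log (c * l) / (c * l) ≤ Real.log h / h :=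
      Real.log_div_self_antitoneOn (show Real.exp 1 ≤ h from hh1)
        (show Real.exp 1 ≤ c * l by linarith) hhc
    have a2 : h / Real.log h ≤ (c * l) / Real.log (c * l) := by
      rw [div_le_div_iff₀ hcl0 hh0] at a1
      rw [div_le_div_iff₀ hlogh0 hlogcl0]
      linarith
    have a3 : (c * l) / Real.log (c * l) ≤ (c * l) / (Real.log l / 2) :=
      div_le_div_of_nonneg_left hcl0.le (by linarith) hlogcl
    calc _ ≤ _ := a2
      _ ≤ _ := a3
      _ = _ := by field_simp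
  have hkl : (k : ℝ) ≤ (16 / η + 1) * l := by
    have a1 : h / Real.log h ≤ h := div_le_self hh0.le hhh
    have a2 : h ≤ l := by nlinarith
    have a3 : 16 / η * (h / Real.log h) ≤ 16 / η * l :=
      mul_le_mul_of_nonneg_left (by linarith) (by positivity)
    nlinarith
  have hexp : 4 * A * Real.log l * k ≤ l / 4 + 4 * A * Real.log l := by
    have a1 : 16 / η * (h / Real.log h) ≤ 16 / η * (2 * (c * l) / Real.log l) :=
      mul_le_mul_of_nonneg_left hratio (by positivity)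
    have a2 : (k : ℝ) ≤ 16 / η * (2 * (c * l) / Real.log l) + 1 := by linarith
    have a3 : 4 * A * Real.log l * k ≤ 4 * A * Real.log l *
        (16 / η * (2 * (c * l) / Real.log l) + 1) :=
      mul_le_mul_of_nonneg_left a2 (by positivity)
    have a4 : 4 * A * Real.log l * (16 / η * (2 * (c * l) / Real.log l) + 1) =
        l / 4 + 4 * A * Real.log l := by
      rw [hc]
      field_simp
      ring
    linarith
  have hpow : (2 * y ^ k * (4 * y) ^ (2 * k)) / η ^ (2 * k) ≤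
      2 * (T ^ (1 / 4 : ℝ) * l ^ (4 * A)) := by
    have a1 : (2 * y ^ k * (4 * y) ^ (2 * k)) / η ^ (2 * k) = 2 * (16 / η ^ 2 * y ^ 3) ^ k := by
      rw [pow_mul, pow_mul, mul_pow (16 / η ^ 2), div_pow, ← pow_mul y 3 k, mul_pow 4 y,
        mul_pow ((4:ℝ) ^ 2), ← pow_mul y 2 k]
      have : y ^ (3 * k) = y ^ k * y ^ (2 * k) := by rw [← pow_add]; congr 1; ring
      rw [this]
      norm_num
      ring
    have a2 : 16 / η ^ 2 * y ^ 3 ≤ l ^ (4 * A) := by
      have b1 : y ^ 3 ≤ (l ^ A) ^ 3 := pow_le_pow_left₀ (by linarith) hyA 3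
      have b2 : 16 / η ^ 2 * y ^ 3 ≤ l ^ A * (l ^ A) ^ 3 :=
        mul_le_mul hlA b1 (by positivity) (by positivity)
      have b3 : l ^ A * (l ^ A) ^ 3 = l ^ (4 * A) := by
        rw [← Real.rpow_natCast, ← Real.rpow_mul hl0.le, ← Real.rpow_add hl0]
        congr 1
        push_cast
        ring
      linarith
    have a3 : (16 / η ^ 2 * y ^ 3) ^ k ≤ (l ^ (4 * A)) ^ k :=
      pow_le_pow_left₀ (by positivity) a2 k
    have a4 : (l ^ (4 * A)) ^ k = Real.exp (4 * A * Real.log l * k) := by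
      rw [← Real.rpow_natCast, ← Real.rpow_mul hl0.le, Real.rpow_def_of_pos hl0]
      congr 1
      ring
    have a5 : Real.exp (l / 4 + 4 * A * Real.log l) = T ^ (1 / 4 : ℝ) * l ^ (4 * A) := by
      rw [Real.exp_add, Real.rpow_def_of_pos hT0, Real.rpow_def_of_pos hl0, ← hl]
      congr 1
      · congr 1; ring
      · congr 1; ring
    rw [a1]
    have a6 := Real.exp_le_exp.2 hexp
    rw [← a4, a5] at a6
    linarith
  have hT6' : Gc * l ^ (4 * A + 1) ≤ κ / 6 * T ^ (1 / 2 : ℝ) := by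
    rw [Real.norm_of_nonneg (by positivity), Real.norm_of_nonneg (by positivity)] at hT6
    have := mul_le_mul_of_nonneg_left hT6 hG0.le
    have e : Gc * (κ / 6 / Gc * T ^ (1 / 2 : ℝ)) = κ / 6 * T ^ (1 / 2 : ℝ) := by
      field_simp
    rwa [e] at this
  have hk1' : (1 : ℝ) ≤ k := by exact_mod_cast hk1
  calc (H + 2) * (4 * k + 2) * (2 * y ^ k * (4 * y) ^ (2 * k)) / η ^ (2 * k)
      = ((H + 2) * (4 * k + 2)) * ((2 * y ^ k * (4 * y) ^ (2 * k)) / η ^ (2 * k)) := by ring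
    _ ≤ ((3 * T ^ (1 / 4 : ℝ)) * (6 * ((16 / η + 1) * l))) *
        (2 * (T ^ (1 / 4 : ℝ) * l ^ (4 * A))) := by
        apply mul_le_mul _ hpow (by positivity) (by positivity)
        exact mul_le_mul (by linarith) (by linarith) (by positivity) (by positivity)
    _ = (T ^ (1 / 4 : ℝ) * T ^ (1 / 4 : ℝ)) * (Gc * (l * l ^ (4 * A))) := by
        rw [hG]; ring
    _ = T ^ (1 / 2 : ℝ) * (Gc * l ^ (4 * A + 1)) := by
        have e1 : T ^ (1 / 4 : ℝ) * T ^ (1 / 4 : ℝ) = T ^ (1 / 2 : ℝ) := by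
          rw [← Real.rpow_add hT0]; norm_num
        have e2 : l * l ^ (4 * A) = l ^ (4 * A + 1) := by
          rw [Real.rpow_add hl0, Real.rpow_one, mul_comm]
        rw [e1, e2]
    _ ≤ T ^ (1 / 2 : ℝ) * (κ / 6 * T ^ (1 / 2 : ℝ)) :=
        mul_le_mul_of_nonneg_left hT6' hTh.le
    _ = κ / 6 * (T ^ (1 / 2 : ℝ) * T ^ (1 / 2 : ℝ)) := by ring
    _ = κ / 6 * T := by rw [hT2]

theorem upt_sq {p : ℕ} (hp : 1 ≤ p) : (1 + Real.log (p : ℝ)) ^ 2 / (p : ℝ) ≤ 4 := by
  have hp1 : (1 : ℝ) ≤ p := by exact_mod_cast hp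
  have hp0 : (0 : ℝ) < p := by linarith
  have h1 := Real.log_le_sub_one_of_pos (Real.sqrt_pos.2 hp0)
  rw [Real.log_sqrt hp0.le] at h1
  have h2 : 0 ≤ Real.log (p : ℝ) := Real.log_nonneg hp1
  have h3 : Real.sqrt p * Real.sqrt p = p := Real.mul_self_sqrt hp0.le
  rw [div_le_iff₀ hp0]
  have h4 : 1 + Real.log (p : ℝ) ≤ 2 * Real.sqrt p := by linarith
  nlinarith [Real.sqrt_nonneg (p : ℝ)]

theorem upt_sum (x y : ℕ) (g : ℕ → ℝ) :
    ∑ p ∈ PP x y, g p = ∑ p : Pr y, (if x < (p : ℕ) then g (p : ℕ) else 0) := by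
  have e1 : ∑ p : Pr y, (if x < (p : ℕ) then g (p : ℕ) else 0) =
      ∑ p ∈ Nat.primesBelow (y + 1), (if x < p then g p else 0) :=
    Finset.sum_coe_sort (Nat.primesBelow (y + 1)) (fun p => if x < p then g p else 0)
  rw [e1, ← Finset.sum_filter]
  refine Finset.sum_congr ?_ fun _ _ => rfl
  ext p
  unfold PP
  simp only [Finset.mem_filter, Finset.mem_Icc, Nat.mem_primesBelow]
  constructor
  · rintro ⟨⟨h1, h2⟩, h3⟩
    exact ⟨⟨by omega, h3⟩, by omega⟩
  · rintro ⟨⟨h1, h3⟩, h2⟩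
    exact ⟨⟨by omega, by omega⟩, h3⟩

theorem upt_coef {p j : ℕ} (hp : p.Prime) (hj : j ≤ 1) :
    ‖((Real.log (p : ℝ) ^ j / (p : ℝ) : ℝ) : ℂ)‖ * (1 + Real.log (p : ℝ)) ≤
      (1 + Real.log (p : ℝ)) ^ 2 / (p : ℝ) ∧
    0 ≤ ‖((Real.log (p : ℝ) ^ j / (p : ℝ) : ℝ) : ℂ)‖ * (1 + Real.log (p : ℝ)) := by
  have hp1 : (1 : ℝ) ≤ p := by exact_mod_cast hp.one_lt.le
  have hp0 : (0 : ℝ) < p := by linarith
  have h2 : 0 ≤ Real.log (p : ℝ) := Real.log_nonneg hp1
  have e : ‖((Real.log (p : ℝ) ^ j / (p : ℝ) : ℝ) : ℂ)‖ = Real.log (p : ℝ) ^ j / (p : ℝ) := by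
    rw [Complex.norm_real, Real.norm_of_nonneg (by positivity)]
  rw [e]
  refine ⟨?_, by positivity⟩
  have h3 : Real.log (p : ℝ) ^ j ≤ 1 + Real.log (p : ℝ) := by
    interval_cases j
    · simp [h2]
    · simp
  calc Real.log (p : ℝ) ^ j / (p : ℝ) * (1 + Real.log (p : ℝ))
      ≤ (1 + Real.log (p : ℝ)) / (p : ℝ) * (1 + Real.log (p : ℝ)) := by
        apply mul_le_mul_of_nonneg_right _ (by linarith)
        exact div_le_div_of_nonneg_right h3 hp0.le
    _ = _ := by ring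

/-- Row UPT. -/
theorem st_UPT (h1 : ST_SUP) (h2 : ST_TLE) (h3 : Pool.Agent.Helper57.SI.ST_TSQ) : ST_UPT := by
  intro η hη A hA
  have hη0 : 0 < η := hη.1
  have hη1 : η < 1 := hη.2
  have hc1 : η / (512 * A) < 1 := by
    rw [div_lt_one (by positivity)]
    nlinarith
  refine ⟨η / (512 * A), ⟨by positivity, hc1⟩, fun κ hκ => ?_⟩
  obtain ⟨C, hC, hTSQ⟩ := h3 (η / 2 / (1 + η)) ⟨by positivity, by
    rw [div_lt_one (by linarith)]; linarith⟩
  obtain ⟨H₀, hH₀, e2⟩ := upt_e2 hη0 hη1 hκ hC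
  obtain ⟨T₀, hT₀, e3⟩ := upt_e3 hη0 hη1 hA hκ rfl
  refine ⟨H₀, T₀, hH₀, hT₀, fun T hT H hH hHT => ?_⟩
  obtain ⟨hll, hZ1, e2'⟩ := e2 H hH
  obtain ⟨hy1, e3'⟩ := e3 T hT
  have hH3 : 3 ≤ H := le_trans hH₀ hH
  obtain ⟨f1, f2, f3⟩ := e3' H hH3 hll hHT
  have hT0 : 0 < T := by linarith
  have hh0 : 0 < Real.log H := Real.log_pos (by linarith)
  have hh1 : 1 ≤ Real.log H := by
    have := Real.log_le_sub_one_of_pos hh0
    linarith
  have hq0 : 0 ≤ 16 / η * (Real.log H / Real.log (Real.log H)) := by positivity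
  obtain ⟨k, hk⟩ : ∃ k : ℕ, k = ⌈16 / η * (Real.log H / Real.log (Real.log H))⌉₊ := ⟨_, rfl⟩
  have hk1 : 16 / η * (Real.log H / Real.log (Real.log H)) ≤ k := by
    rw [hk]; exact Nat.le_ceil _
  have hk2 : (k : ℝ) ≤ 16 / η * (Real.log H / Real.log (Real.log H)) + 1 := by
    rw [hk]; exact (Nat.ceil_lt_add_one hq0).le
  have hk3 : (k : ℝ) ≤ (16 / η + 1) * Real.log H := by
    have a1 : Real.log H / Real.log (Real.log H) ≤ Real.log H := div_le_self hh0.le hll
    have a2 : 16 / η * (Real.log H / Real.log (Real.log H)) ≤ 16 / η * Real.log H :=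
      mul_le_mul_of_nonneg_left a1 (by positivity)
    nlinarith
  have hk4 : 1 ≤ k := by
    rw [hk, Nat.one_le_ceil_iff]
    positivity
  have E2 := e2' k hk1 hk3
  have E3 := f3 k hk4 hk2
  have key : ∀ j : ℕ, j ≤ 1 → ∃ E : Set ℝ, E ⊆ Icc T (2 * T) ∧ volume.real E ≤ κ / 2 * T ∧
      ∀ u ∈ Icc T (2 * T), u ∉ E → ∀ t ∈ Icc u (u + H),
        ‖tl j (zA A T) (ZZ η H) (lin (zA A T) t)‖ ≤ η := by
    intro j hj
    have hPpr : ∀ p ∈ PP (ZZ η H) (zA A T), p.Prime := fun p hp => (Finset.mem_filter.1 hp).2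
    obtain ⟨E, hE1, hE2, hE3⟩ := h1 (PP (ZZ η H) (zA A T))
      (fun p => ((Real.log (p : ℝ) ^ j / (p : ℝ) : ℝ) : ℂ)) (zA A T : ℝ)
      (C * (ZZ η H : ℝ) ^ (-(1 - η / 2 / (1 + η)))) (4 * (zA A T : ℝ)) η H T k hPpr
      (fun p hp => by
        have := (Finset.mem_Icc.1 (Finset.mem_filter.1 hp).1).2
        exact_mod_cast this) hy1 hk4 hη0 (by linarith) f2
      (by
        refine le_trans ?_ (hTSQ (zA A T) (ZZ η H) hZ1)
        rw [← upt_sum (ZZ η H) (zA A T) (fun p => ((1 + Real.log (p : ℝ)) ^ 2 / (p : ℝ)) ^ 2)]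
        refine Finset.sum_le_sum fun p hp => ?_
        have hc := upt_coef (hPpr p hp) hj
        exact pow_le_pow_left₀ hc.2 hc.1 2)
      (by
        have a1 : ∑ p ∈ PP (ZZ η H) (zA A T),
            ‖((Real.log (p : ℝ) ^ j / (p : ℝ) : ℝ) : ℂ)‖ * (1 + Real.log (p : ℝ)) ≤
            ∑ p ∈ PP (ZZ η H) (zA A T), (4 : ℝ) :=
          Finset.sum_le_sum fun p hp =>
            le_trans (upt_coef (hPpr p hp) hj).1 (upt_sq (hPpr p hp).one_lt.le)
        refine le_trans a1 ?_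
        rw [Finset.sum_const, nsmul_eq_mul]
        have a2 : (PP (ZZ η H) (zA A T)).card ≤ zA A T := by
          unfold PP
          refine le_trans (Finset.card_filter_le _ _) ?_
          rw [Nat.card_Icc]
          omega
        have a3 : ((PP (ZZ η H) (zA A T)).card : ℝ) ≤ (zA A T : ℝ) := by exact_mod_cast a2
        linarith)
    refine ⟨E, hE1, ?_, fun u hu huE t ht => ?_⟩
    · refine le_trans hE2 ?_
      have e : (H + 2) * (1 + (4 * k + 2) *
          (T * (k.factorial * (C * (ZZ η H : ℝ) ^ (-(1 - η / 2 / (1 + η)))) ^ k) +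
            2 * (zA A T : ℝ) ^ k * (4 * (zA A T : ℝ)) ^ (2 * k)) / η ^ (2 * k)) =
          (H + 2) + T * ((H + 2) * (4 * k + 2) * (k.factorial *
            (C * (ZZ η H : ℝ) ^ (-(1 - η / 2 / (1 + η)))) ^ k) / η ^ (2 * k)) +
          (H + 2) * (4 * k + 2) * (2 * (zA A T : ℝ) ^ k * (4 * (zA A T : ℝ)) ^ (2 * k)) /
            η ^ (2 * k) := by
        ring
      rw [e]
      have := mul_le_mul_of_nonneg_left E2 hT0.le
      linarith
    · rw [h2]
      exact hE3 u hu huE t ht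
  obtain ⟨E, hE1, hE2, hE3⟩ := key 0 (by norm_num)
  obtain ⟨F, hF1, hF2, hF3⟩ := key 1 le_rfl
  refine ⟨E ∪ F, union_subset hE1 hF1, ?_, fun u hu huE t ht => ?_⟩
  · have := measureReal_union_le (μ := volume) E F
    linarith
  · exact ⟨hE3 u hu (fun h => huE (Or.inl h)) t ht, hF3 u hu (fun h => huE (Or.inr h)) t ht⟩

end Pool.Agent.Helper85.SJ
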